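import Mathlib
import Pool.Agent.W292.FM.NotDR

/-!
A counterexample to the implication from condition 2 to condition 1 of the problem, for every
number field `F` and every prime `l`: a one-dimensional representation of the absolute Galois
group of `F` (the inverse of a square root of the cyclotomic character) whose Weil-Deligne
representations at all finite places not above `l` are integral and pure of weight `1`, and which
is not de Rham at any place above `l`.
-/

namespace Pool.Agent.Results.MP_395897_nt.SquareRootCyclotomic

open Pool.Agent.W292.FM

universe u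

theorem result (F : Type u) [Field F] [NumberField F] (l : ℕ) [Fact l.Prime] :
    ∃ ρ : Gal(AlgebraicClosure F/F) →* GL (Fin 1) (PadicAlgCl l),
      Continuous ρ ∧ IsIrred ρ ∧ UnramifiedAE ρ ∧
        PureIntegral ρ ∧ ¬ DeRhamNonneg ρ ∧
          ∀ ι : AlgebraicClosure F →+* PadicAlgCl l, ¬ IsDeRhamAt ρ ι := by
  refine ⟨rho F l, continuous_rho, irreducible_rho, unramified_rho, pureIntegral_rho, ?_,
    not_deRham⟩
  have : Algebra.IsAlgebraic ℚ (AlgebraicClosure F) :=
    Algebra.IsAlgebraic.trans ℚ F (AlgebraicClosure F)
  let ι : AlgebraicClosure F →ₐ[ℚ] PadicAlgCl l := IsAlgClosed.lift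
  exact fun h => not_deRham (ι : AlgebraicClosure F →+* PadicAlgCl l) (h _).1

end Pool.Agent.Results.MP_395897_nt.SquareRootCyclotomic
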